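import Pool.Agent.H77.TL.Defs

/-!
# Crew TL : statements of the parts

Final assembly: RED (T → R1 → S07979), IND (BASE, DEC, CAL0, TPL, R2 → T), TPL (CAL, N1, C2 → two point lemma).
Numerical parts: N1, R2, NEG, T5, C2X, BASE, DEC, R1.
-/

set_option autoImplicit false

namespace Pool.MP324

/-- (T) level one inequality -/
def S_T : Prop := ∀ (n : ℕ) (B : Finset (Fin n → Bool)), B.Nonempty →
  ∑ i, f (mm B) |bias B i| ≤ mm B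

/-- (R1) -/
def S_R1 : Prop := ∀ m y : ℝ, 2 ≤ m → 0 ≤ y → y ≤ 1 → jj m y ≤ f m y

/-- (BASE) -/
def S_BASE : Prop := ∀ (n : ℕ) (B : Finset (Fin n → Bool)), B.Nonempty → mm B ≤ m0 →
  ∑ i, f (mm B) |bias B i| ≤ mm B

/-- (DEC) `f` decreases when `m` increases by one -/
def S_DEC : Prop := ∀ m y : ℝ, 1 ≤ m → 0 ≤ y → y ≤ 1 → y ≤ (2:ℝ) ^ (m - 1) - 1 →
  f m y ≤ f (m - 1) y

/-- (CAL) total derivatives of `f`, `fm`, `fy` along a curve -/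
def S_CALf : Prop := ∀ (M Y : ℝ → ℝ) (M' Y' s : ℝ), HasDerivAt M M' s → HasDerivAt Y Y' s →
  0 ≤ M s → |Y s| < 1 →
  HasDerivAt (fun s => f (M s) (Y s)) (fm (M s) (Y s) * M' + fy (M s) (Y s) * Y') s

def S_CALm : Prop := ∀ (M Y : ℝ → ℝ) (M' Y' s : ℝ), HasDerivAt M M' s → HasDerivAt Y Y' s →
  0 ≤ M s → |Y s| < 1 →
  HasDerivAt (fun s => fm (M s) (Y s)) (fmm (M s) (Y s) * M' + fmy (M s) (Y s) * Y') s

def S_CALy : Prop := ∀ (M Y : ℝ → ℝ) (M' Y' s : ℝ), HasDerivAt M M' s → HasDerivAt Y Y' s →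
  0 ≤ M s → |Y s| < 1 →
  HasDerivAt (fun s => fy (M s) (Y s)) (fmy (M s) (Y s) * M' + fyy (M s) (Y s) * Y') s

/-- (CALc) continuity up to `y = 1`, along a curve -/
def S_CALc : Prop := ∀ (M Y : ℝ → ℝ) (s₀ s₁ : ℝ), ContinuousOn M (Set.Icc s₀ s₁) →
  ContinuousOn Y (Set.Icc s₀ s₁) → (∀ s ∈ Set.Icc s₀ s₁, 0 < M s) →
  (∀ s ∈ Set.Icc s₀ s₁, |Y s| ≤ 1) →
  ContinuousOn (fun s => f (M s) (Y s)) (Set.Icc s₀ s₁)

/-- (N1) `P`-convexity of `f` on the domain `0 ≤ y ≤ min(1, 2^m - 1)` -/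
def S_N1 : Prop := ∀ m y z : ℝ, 0 < m → 0 < y → y < 1 → y ≤ (2:ℝ) ^ m - 1 → 0 ≤ z →
  0 ≤ fyy m y * z ^ 2 + 2 * (fmy m y - eps m / 2 * fy m y) * z
    + (fmm m y - (Real.log 2 + eps m) * fm m y)

/-- (R2) -/
def S_R2 : Prop := ∀ m x : ℝ, m0 ≤ m → 0 < x → x < 1 → x ≤ (2:ℝ) ^ m - 1 →
  (f m x - lm x) * (EE (tt m) - EE (tp m x)) ≤ (lp x - f m x) * (EE (tm m x) - EE (tt m))

/-- (C2) slopes at equal labels -/
def S_C2 : Prop := ∀ m x y : ℝ, 0 < m → 0 < x → x < 1 → x ≤ (2:ℝ) ^ m - 1 → 0 < y → y ≤ x →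
  y ≤ (2:ℝ) ^ (mp m x) - 1 →
  (EE (tt m) - EE (tp m x)) / (tt m - tp m x) * fy (mn m x) y
    ≤ (EE (tm m x) - EE (tt m)) / (tm m x - tt m) * fy (mp m x) y

/-- (TPL) the two point lemma -/
def S_TPL : Prop := ∀ m x u v : ℝ, 0 < m → 0 < x → x < 1 → x ≤ (2:ℝ) ^ m - 1 →
  |u| ≤ 1 → |u| ≤ (2:ℝ) ^ (mp m x) - 1 → |v| ≤ 1 → |v| ≤ (2:ℝ) ^ (mn m x) - 1 →
  |(1 + x) / 2 * u + (1 - x) / 2 * v| ≤ x →
  f m |(1 + x) / 2 * u + (1 - x) / 2 * v|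
    ≤ wp m x * f (mp m x) |u| + wn m x * f (mn m x) |v|

end Pool.MP324
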