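import Pool.Agent.H77.TL.Drv
import Pool.Agent.H77.TL.Stm

/-!
# Crew TL : statements about the tool (slope arithmetic) and the numerical parts
-/

set_option autoImplicit false

namespace Pool.MP324

/-- `|a| ≤ R1/2^30`, `|b| ≤ R2/2^30` -/
def Disp (R1 R2 : ℕ) (a b : ℝ) : Prop := |a| * 2 ^ 30 ≤ (R1 : ℝ) ∧ |b| * 2 ^ 30 ≤ (R2 : ℝ)

/-! ### TLIN -/
def S_Rcst : Prop := ∀ (a b x : ℝ) (n : ℤ) (e : ℕ), |x * 2 ^ 30 - (n : ℝ)| ≤ (e : ℝ) →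
  Rel a b (A.cst n e) x x
def S_Rint : Prop := ∀ (a b : ℝ) (n : ℤ), Rel a b (A.int n) n n
def S_Radd : Prop := ∀ (a b : ℝ) (X Y : A) (x x' y y' : ℝ), Rel a b X x x' → Rel a b Y y y' →
  Rel a b (A.add X Y) (x + y) (x' + y')
def S_Rsub : Prop := ∀ (a b : ℝ) (X Y : A) (x x' y y' : ℝ), Rel a b X x x' → Rel a b Y y y' →
  Rel a b (A.sub X Y) (x - y) (x' - y')
def S_Rneg : Prop := ∀ (a b : ℝ) (X : A) (x x' : ℝ), Rel a b X x x' →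
  Rel a b (A.neg X) (-x) (-x')
def S_Rnmul : Prop := ∀ (a b : ℝ) (n : ℕ) (X : A) (x x' : ℝ), Rel a b X x x' →
  Rel a b (A.nmul n X) (n * x) (n * x')
def S_Rhalf : Prop := ∀ (a b : ℝ) (X : A) (x x' : ℝ), Rel a b X x x' →
  Rel a b (A.half X) (x / 2) (x' / 2)
def S_LIN : Prop := S_Rcst ∧ S_Rint ∧ S_Radd ∧ S_Rsub ∧ S_Rneg ∧ S_Rnmul ∧ S_Rhalf

/-! ### TMUL -/
def S_Rmul : Prop := ∀ (R1 R2 : ℕ) (a b : ℝ), Disp R1 R2 a b → ∀ (X Y : A) (x x' y y' : ℝ),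
  Rel a b X x x' → Rel a b Y y y' → Rel a b (A.mul R1 R2 X Y) (x * y) (x' * y')
def S_Rpos : Prop := ∀ (R1 R2 : ℕ) (a b : ℝ), Disp R1 R2 a b → ∀ (X : A) (x x' : ℝ),
  Rel a b X x x' → A.pos R1 R2 X = true → 0 < x'
def S_MUL : Prop := S_Rmul ∧ S_Rpos

/-! ### TINV -/
def S_Rinv : Prop := ∀ (R1 R2 : ℕ) (a b : ℝ), Disp R1 R2 a b → ∀ (X : A) (x x' : ℝ),
  Rel a b X x x' → Rel a b (A.inv R1 R2 X) x⁻¹ x'⁻¹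

/-! ### TPAR : the generic functions respect the relation -/
def S_PARn1D : Prop := ∀ (R1 R2 : ℕ) (a b : ℝ), Disp R1 R2 a b →
  ∀ (X1 X2 X3 X4 X5 X6 X7 : A) (x1 x2 x3 x4 x5 x6 x7 y1 y2 y3 y4 y5 y6 y7 : ℝ),
  Rel a b X1 x1 y1 → Rel a b X2 x2 y2 → Rel a b X3 x3 y3 → Rel a b X4 x4 y4 →
  Rel a b X5 x5 y5 → Rel a b X6 x6 y6 → Rel a b X7 x7 y7 →
  Rel a b (n1D (opsA R1 R2) X1 X2 X3 X4 X5 X6 X7).1 (n1D opsR x1 x2 x3 x4 x5 x6 x7).1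
    (n1D opsR y1 y2 y3 y4 y5 y6 y7).1 ∧
  Rel a b (n1D (opsA R1 R2) X1 X2 X3 X4 X5 X6 X7).2.1 (n1D opsR x1 x2 x3 x4 x5 x6 x7).2.1
    (n1D opsR y1 y2 y3 y4 y5 y6 y7).2.1 ∧
  Rel a b (n1D (opsA R1 R2) X1 X2 X3 X4 X5 X6 X7).2.2.1 (n1D opsR x1 x2 x3 x4 x5 x6 x7).2.2.1
    (n1D opsR y1 y2 y3 y4 y5 y6 y7).2.2.1 ∧
  Rel a b (n1D (opsA R1 R2) X1 X2 X3 X4 X5 X6 X7).2.2.2 (n1D opsR x1 x2 x3 x4 x5 x6 x7).2.2.2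
    (n1D opsR y1 y2 y3 y4 y5 y6 y7).2.2.2
def S_PARn1Y : Prop := ∀ (R1 R2 : ℕ) (a b : ℝ), Disp R1 R2 a b →
  ∀ (X1 X2 X3 X4 X5 X6 X7 : A) (x1 x2 x3 x4 x5 x6 x7 y1 y2 y3 y4 y5 y6 y7 : ℝ),
  Rel a b X1 x1 y1 → Rel a b X2 x2 y2 → Rel a b X3 x3 y3 → Rel a b X4 x4 y4 →
  Rel a b X5 x5 y5 → Rel a b X6 x6 y6 → Rel a b X7 x7 y7 →
  Rel a b (n1Y (opsA R1 R2) X1 X2 X3 X4 X5 X6 X7).1 (n1Y opsR x1 x2 x3 x4 x5 x6 x7).1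
    (n1Y opsR y1 y2 y3 y4 y5 y6 y7).1 ∧
  Rel a b (n1Y (opsA R1 R2) X1 X2 X3 X4 X5 X6 X7).2.1 (n1Y opsR x1 x2 x3 x4 x5 x6 x7).2.1
    (n1Y opsR y1 y2 y3 y4 y5 y6 y7).2.1 ∧
  Rel a b (n1Y (opsA R1 R2) X1 X2 X3 X4 X5 X6 X7).2.2.1 (n1Y opsR x1 x2 x3 x4 x5 x6 x7).2.2.1
    (n1Y opsR y1 y2 y3 y4 y5 y6 y7).2.2.1 ∧
  Rel a b (n1Y (opsA R1 R2) X1 X2 X3 X4 X5 X6 X7).2.2.2 (n1Y opsR x1 x2 x3 x4 x5 x6 x7).2.2.2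
    (n1Y opsR y1 y2 y3 y4 y5 y6 y7).2.2.2
def S_PARr2D : Prop := ∀ (R1 R2 : ℕ) (a b : ℝ), Disp R1 R2 a b →
  ∀ (X1 X2 X3 X4 X5 X6 X7 : A) (x1 x2 x3 x4 x5 x6 x7 y1 y2 y3 y4 y5 y6 y7 : ℝ),
  Rel a b X1 x1 y1 → Rel a b X2 x2 y2 → Rel a b X3 x3 y3 → Rel a b X4 x4 y4 →
  Rel a b X5 x5 y5 → Rel a b X6 x6 y6 → Rel a b X7 x7 y7 →
  Rel a b (r2D (opsA R1 R2) X1 X2 X3 X4 X5 X6 X7) (r2D opsR x1 x2 x3 x4 x5 x6 x7)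
    (r2D opsR y1 y2 y3 y4 y5 y6 y7)
def S_PARr2Y : Prop := ∀ (R1 R2 : ℕ) (a b : ℝ), Disp R1 R2 a b →
  ∀ (X1 X2 X3 X4 X5 X6 X7 : A) (x1 x2 x3 x4 x5 x6 x7 y1 y2 y3 y4 y5 y6 y7 : ℝ),
  Rel a b X1 x1 y1 → Rel a b X2 x2 y2 → Rel a b X3 x3 y3 → Rel a b X4 x4 y4 →
  Rel a b X5 x5 y5 → Rel a b X6 x6 y6 → Rel a b X7 x7 y7 →
  Rel a b (r2Y (opsA R1 R2) X1 X2 X3 X4 X5 X6 X7) (r2Y opsR x1 x2 x3 x4 x5 x6 x7)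
    (r2Y opsR y1 y2 y3 y4 y5 y6 y7)
def S_PAR : Prop := S_PARn1D ∧ S_PARn1Y ∧ S_PARr2D ∧ S_PARr2Y

/-! ### TCH -/
/-- enclosures of an increasing convex or concave function give the tuple `chord` -/
def S_CH : Prop := ∀ (φ : ℝ → ℝ) (x0 xc x1 l0 h0 lc hc l1 h1 : ℕ), x0 < xc → xc < x1 →
  (ConvexOn ℝ (Set.Icc ((x0 : ℝ) / 2 ^ 30) ((x1 : ℝ) / 2 ^ 30)) φ ∨
    ConcaveOn ℝ (Set.Icc ((x0 : ℝ) / 2 ^ 30) ((x1 : ℝ) / 2 ^ 30)) φ) →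
  MonotoneOn φ (Set.Icc ((x0 : ℝ) / 2 ^ 30) ((x1 : ℝ) / 2 ^ 30)) →
  (l0 : ℝ) ≤ φ ((x0 : ℝ) / 2 ^ 30) * 2 ^ 30 → φ ((x0 : ℝ) / 2 ^ 30) * 2 ^ 30 ≤ (h0 : ℝ) →
  (lc : ℝ) ≤ φ ((xc : ℝ) / 2 ^ 30) * 2 ^ 30 → φ ((xc : ℝ) / 2 ^ 30) * 2 ^ 30 ≤ (hc : ℝ) →
  (l1 : ℝ) ≤ φ ((x1 : ℝ) / 2 ^ 30) * 2 ^ 30 → φ ((x1 : ℝ) / 2 ^ 30) * 2 ^ 30 ≤ (h1 : ℝ) →
  ∀ a x : ℝ, x ∈ Set.Icc ((x0 : ℝ) / 2 ^ 30) ((x1 : ℝ) / 2 ^ 30) →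
    Rel a (x - (xc : ℝ) / 2 ^ 30) (chord x0 xc x1 l0 h0 lc hc l1 h1) (φ ((xc : ℝ) / 2 ^ 30)) (φ x)

/-! ### TSER -/
/-- `alf Y = ∑ Y^k/(2k+1)`, `bef Y = ∑ Y^k/(k+1)` -/
noncomputable def alf (Y : ℝ) : ℝ := ∑' k : ℕ, Y ^ k / (2 * (k : ℝ) + 1)
noncomputable def bef (Y : ℝ) : ℝ := ∑' k : ℕ, Y ^ k / ((k : ℝ) + 1)

def S_SER : Prop :=
  (∀ Y : ℕ, Y ≤ 2 ^ 29 → ∀ n : ℕ, (serLo 2 Y n 0 : ℝ) ≤ alf ((Y : ℝ) / 2 ^ 30) * 2 ^ 30 ∧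
    alf ((Y : ℝ) / 2 ^ 30) * 2 ^ 30 ≤ (serHi 2 Y n 0 : ℝ)) ∧
  (∀ Y : ℕ, Y ≤ 2 ^ 29 → ∀ n : ℕ, (serLo 1 Y n 0 : ℝ) ≤ bef ((Y : ℝ) / 2 ^ 30) * 2 ^ 30 ∧
    bef ((Y : ℝ) / 2 ^ 30) * 2 ^ 30 ≤ (serHi 1 Y n 0 : ℝ)) ∧
  ConvexOn ℝ (Set.Icc 0 (1 / 2 : ℝ)) alf ∧ MonotoneOn alf (Set.Icc 0 (1 / 2 : ℝ)) ∧
  ConvexOn ℝ (Set.Icc 0 (1 / 2 : ℝ)) bef ∧ MonotoneOn bef (Set.Icc 0 (1 / 2 : ℝ)) ∧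
  (∀ y : ℝ, 0 ≤ y → y < 1 → Real.log (1 + y) - Real.log (1 - y) = 2 * y * alf (y ^ 2) ∧
    - Real.log (1 - y ^ 2) = y ^ 2 * bef (y ^ 2))

/-! ### TLG -/
def S_LG : Prop :=
  (∀ y : ℕ, y ≤ 2 ^ 30 → (lpLo y : ℝ) ≤ lp ((y : ℝ) / 2 ^ 30) * 2 ^ 30 ∧
    lp ((y : ℝ) / 2 ^ 30) * 2 ^ 30 ≤ (lpHi y : ℝ)) ∧
  (∀ y : ℕ, y < 2 ^ 30 → (LLo y : ℝ) ≤ - lm ((y : ℝ) / 2 ^ 30) * 2 ^ 30 ∧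
    - lm ((y : ℝ) / 2 ^ 30) * 2 ^ 30 ≤ (LHi y : ℝ)) ∧
  ConcaveOn ℝ (Set.Ico 0 (1 : ℝ)) lp ∧ MonotoneOn lp (Set.Ico 0 (1 : ℝ)) ∧
  ConvexOn ℝ (Set.Ico 0 (1 : ℝ)) (fun y => - lm y) ∧ MonotoneOn (fun y => - lm y) (Set.Ico 0 (1 : ℝ))

/-! ### TDRV -/
def S_DRVY : Prop := ∀ (F : ℕ → ℕ → A → A → A → A → Bool) (cap j0 : ℕ) (l : List (ℕ × List ℕ)),
  strips (stripY F) cap j0 l = true → stripsEnd j0 l ≤ 2896 →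
  ∀ μ y : ℝ, 0 ≤ μ → μ * 4096 ≤ cap → μ * (1 + y) ≤ 1 → (j0 : ℝ) / 4096 ≤ y →
    y ≤ (stripsEnd j0 l : ℝ) / 4096 → j0 < stripsEnd j0 l →
  ∃ (R1 R2 : ℕ) (a b μc Yc : ℝ) (X1 X2 X3 X4 : A), Disp R1 R2 a b ∧
    Rel a b X1 μc μ ∧ Rel a b X2 Yc (y ^ 2) ∧ Rel a b X3 (alf Yc) (alf (y ^ 2)) ∧
    Rel a b X4 (bef Yc) (bef (y ^ 2)) ∧ F R1 R2 X1 X2 X3 X4 = true
def S_DRVD : Prop := ∀ (F : ℕ → ℕ → A → A → A → A → Bool) (cap j0 : ℕ) (l : List (ℕ × List ℕ)),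
  strips (stripD F) cap j0 l = true → stripsEnd j0 l ≤ 4095 →
  ∀ μ y : ℝ, 0 ≤ μ → μ * 4096 ≤ cap → μ * (1 + y) ≤ 1 → (j0 : ℝ) / 4096 ≤ y →
    y ≤ (stripsEnd j0 l : ℝ) / 4096 → j0 < stripsEnd j0 l →
  ∃ (R1 R2 : ℕ) (a b μc yc : ℝ) (X1 X2 X3 X4 : A), Disp R1 R2 a b ∧
    Rel a b X1 μc μ ∧ Rel a b X2 yc y ∧ Rel a b X3 (lp yc) (lp y) ∧
    Rel a b X4 (- lm yc) (- lm y) ∧ F R1 R2 X1 X2 X3 X4 = true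

/-! ### algebra parts: `μ = 1/(m+1)` -/
/-- the test N1 in the `μ`-form implies N1 -/
def S_AN1D : Prop := ∀ m y : ℝ, 0 < m → 0 < y → y < 1 →
  0 < (n1D opsR (1 / (m + 1)) y (lp y) (- lm y) cc (Real.log 2) (33 / 5)).1 →
  (0 < (n1D opsR (1 / (m + 1)) y (lp y) (- lm y) cc (Real.log 2) (33 / 5)).2.2.2 ∨
    (0 < (n1D opsR (1 / (m + 1)) y (lp y) (- lm y) cc (Real.log 2) (33 / 5)).2.1 ∧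
     0 < (n1D opsR (1 / (m + 1)) y (lp y) (- lm y) cc (Real.log 2) (33 / 5)).2.2.1)) →
  ∀ z : ℝ, 0 ≤ z → 0 ≤ fyy m y * z ^ 2 + 2 * (fmy m y - eps m / 2 * fy m y) * z
    + (fmm m y - (Real.log 2 + eps m) * fm m y)
def S_AN1Y : Prop := ∀ m y : ℝ, 0 < m → 0 < y → y < 1 →
  0 < (n1Y opsR (1 / (m + 1)) (y ^ 2) (alf (y ^ 2)) (bef (y ^ 2)) cc (Real.log 2) (33 / 5)).1 →
  (0 < (n1Y opsR (1 / (m + 1)) (y ^ 2) (alf (y ^ 2)) (bef (y ^ 2)) cc (Real.log 2) (33 / 5)).2.2.2 ∨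
    (0 < (n1Y opsR (1 / (m + 1)) (y ^ 2) (alf (y ^ 2)) (bef (y ^ 2)) cc (Real.log 2) (33 / 5)).2.1 ∧
     0 < (n1Y opsR (1 / (m + 1)) (y ^ 2) (alf (y ^ 2)) (bef (y ^ 2)) cc (Real.log 2) (33 / 5)).2.2.1)) →
  ∀ z : ℝ, 0 ≤ z → 0 ≤ fyy m y * z ^ 2 + 2 * (fmy m y - eps m / 2 * fy m y) * z
    + (fmm m y - (Real.log 2 + eps m) * fm m y)

/-- the cubic minorant/majorant of the clock: `G(w) = (1 + μ w)(1 + κ w/2 - κ² w²/8)`, `κ = 1/(m+15)`,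
`R = G - cc G' + cc² G'' - cc³ G'''` -/
noncomputable def RR (m w : ℝ) : ℝ :=
  let μ := 1 / (m + 1)
  let κ := 1 / (m + 15)
  let g1 := μ + κ / 2
  let g2 := μ * κ / 2 - κ ^ 2 / 8
  let g3 := - (μ * κ ^ 2 / 8)
  (1 + g1 * w + g2 * w ^ 2 + g3 * w ^ 3) - cc * (g1 + 2 * g2 * w + 3 * g3 * w ^ 2)
    + cc ^ 2 * (2 * g2 + 6 * g3 * w) - cc ^ 3 * (6 * g3)

/-- R2 follows from the explicit inequality -/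
def S_R2RED : Prop := ∀ m x : ℝ, m0 ≤ m → 0 < x → x < 1 → x ≤ (2:ℝ) ^ m - 1 →
  0 ≤ (lp x - f m x) * (1 + x) * RR m (- lm x) + (f m x - lm x) * (1 - x) * RR m (- lp x)
    - (1 - x ^ 2) * RR m 0 * (lp x - lm x) →
  (f m x - lm x) * (EE (tt m) - EE (tp m x)) ≤ (lp x - f m x) * (EE (tm m x) - EE (tt m))

def S_AR2D : Prop := ∀ m x : ℝ, 0 < m → 0 < x → x < 1 →
  0 < r2D opsR (1 / (m + 1)) x (lp x) (- lm x) cc (Real.log 2) (33 / 5) →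
  0 ≤ (lp x - f m x) * (1 + x) * RR m (- lm x) + (f m x - lm x) * (1 - x) * RR m (- lp x)
    - (1 - x ^ 2) * RR m 0 * (lp x - lm x)
def S_AR2Y : Prop := ∀ m x : ℝ, 0 < m → 0 < x → x < 1 →
  0 < r2Y opsR (1 / (m + 1)) (x ^ 2) (alf (x ^ 2)) (bef (x ^ 2)) cc (Real.log 2) (33 / 5) →
  0 ≤ (lp x - f m x) * (1 + x) * RR m (- lm x) + (f m x - lm x) * (1 - x) * RR m (- lp x)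
    - (1 - x ^ 2) * RR m 0 * (lp x - lm x)

end Pool.MP324
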