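import Pool.Agent.H77.TL.Drv2
import Pool.Agent.H77.TL.ToolStm

/-!
# Crew TL : C2 (slopes at equal labels)

Scheme. `C2` for `y ≤ 0.66` follows from `fmy ≤ 0` (NEG) and the monotonicity of `E`.
For `0.66 ≤ y ≤ x`: the ratio `fy (mp m x) y / fy (mn m x) y` is nonincreasing in `y` (T5 says that
`fyy/fy` is nondecreasing in `m`), so the worst case is `y = x`, which is `C2X` with the explicit bounds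
`EAVG` of the averages of `E`.
-/

set_option autoImplicit false

namespace Pool.MP324

/-- `∂_m J_yy` and `∂_m f_yy` -/
noncomputable def Jyym (m y : ℝ) : ℝ :=
  (cc / 2) * (((2 * m + 1) * (ap m y ^ 2 * (1 + 2 * cc * ap m y))
      - 2 * m * (m + 1) * (ap m y ^ 3 * (1 + 3 * cc * ap m y))) / (1 + y)
    + ((2 * m + 1) * (am m y ^ 2 * (1 + 2 * cc * am m y))
      - 2 * m * (m + 1) * (am m y ^ 3 * (1 + 3 * cc * am m y))) / (1 - y))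
noncomputable def fyym (m y : ℝ) : ℝ := (1 - w m) * Jyym m y + w1 m * (qyy y - Jyy m y)

/-- (CAL2) -/
def S_CALyy : Prop := ∀ m y : ℝ, 0 < m → |y| < 1 →
  HasDerivAt (fun m => fyy m y) (fyym m y) m

/-- (NEG) -/
def S_NEG : Prop := ∀ m y : ℝ, 0 < m → 0 < y → y ≤ 66 / 100 → y ≤ (2:ℝ) ^ m - 1 → fmy m y ≤ 0

/-- (T5) `fyy/fy` is nondecreasing in `m` -/
def S_T5 : Prop := ∀ m y : ℝ, 73 / 100 ≤ m → 66 / 100 ≤ y → y < 1 →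
  0 ≤ fyym m y * fy m y - fyy m y * fmy m y

/-- (C2X) -/
def S_C2X : Prop := ∀ m x : ℝ, 73 / 100 ≤ mp m x → 66 / 100 ≤ x → x < 1 →
  (m + 1 - cc + lp x / x) * fy (mn m x) x ≤ (m + 1 - cc - lm x / x) * fy (mp m x) x

/-- (EAVG) bounds of the averages of the clock -/
def S_EAVG : Prop := ∀ m x : ℝ, 0 < m → 0 < x → x < 1 → x ≤ (2:ℝ) ^ m - 1 →
  (EE (tt m) - EE (tp m x)) / (tt m - tp m x) ≤ Real.sqrt (m + 15) * (m + 1 - cc + lp x / x) ∧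
  Real.sqrt (m + 15) * (m + 1 - cc - lm x / x) ≤ (EE (tm m x) - EE (tt m)) / (tm m x - tt m)

/-- (C2RED) -/
def S_C2RED : Prop := S_NEG → S_T5 → S_C2X → S_EAVG → S_CALm → S_CALy → S_CALyy → S_C2

/-! ### parametricity -/
def S_PARnegY : Prop := ∀ (R1 R2 : ℕ) (a b : ℝ), Disp R1 R2 a b →
  ∀ (X1 X2 X3 X4 X5 X6 X7 : A) (x1 x2 x3 x4 x5 x6 x7 y1 y2 y3 y4 y5 y6 y7 : ℝ),
  Rel a b X1 x1 y1 → Rel a b X2 x2 y2 → Rel a b X3 x3 y3 → Rel a b X4 x4 y4 →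
  Rel a b X5 x5 y5 → Rel a b X6 x6 y6 → Rel a b X7 x7 y7 →
  Rel a b (negY (opsA R1 R2) X1 X2 X3 X4 X5 X6 X7) (negY opsR x1 x2 x3 x4 x5 x6 x7)
    (negY opsR y1 y2 y3 y4 y5 y6 y7)
def S_PARt5D : Prop := ∀ (R1 R2 : ℕ) (a b : ℝ), Disp R1 R2 a b →
  ∀ (X1 X2 X3 X4 X5 X6 X7 : A) (x1 x2 x3 x4 x5 x6 x7 y1 y2 y3 y4 y5 y6 y7 : ℝ),
  Rel a b X1 x1 y1 → Rel a b X2 x2 y2 → Rel a b X3 x3 y3 → Rel a b X4 x4 y4 →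
  Rel a b X5 x5 y5 → Rel a b X6 x6 y6 → Rel a b X7 x7 y7 →
  Rel a b (t5D (opsA R1 R2) X1 X2 X3 X4 X5 X6 X7) (t5D opsR x1 x2 x3 x4 x5 x6 x7)
    (t5D opsR y1 y2 y3 y4 y5 y6 y7)
def S_PARc2D : Prop := ∀ (R1 R2 : ℕ) (a b : ℝ), Disp R1 R2 a b →
  ∀ (X1 X2 X3 X4 X5 X6 X7 : A) (x1 x2 x3 x4 x5 x6 x7 y1 y2 y3 y4 y5 y6 y7 : ℝ),
  Rel a b X1 x1 y1 → Rel a b X2 x2 y2 → Rel a b X3 x3 y3 → Rel a b X4 x4 y4 →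
  Rel a b X5 x5 y5 → Rel a b X6 x6 y6 → Rel a b X7 x7 y7 →
  Rel a b (c2D (opsA R1 R2) X1 X2 X3 X4 X5 X6 X7) (c2D opsR x1 x2 x3 x4 x5 x6 x7)
    (c2D opsR y1 y2 y3 y4 y5 y6 y7)
def S_PARt5E : Prop := ∀ (R1 R2 : ℕ) (a b : ℝ), Disp R1 R2 a b →
  ∀ (X0 X1 X2 X3 X4 X5 X6 X7 X8 X9 : A)
    (x0 x1 x2 x3 x4 x5 x6 x7 x8 x9 y0 y1 y2 y3 y4 y5 y6 y7 y8 y9 : ℝ),
  Rel a b X0 x0 y0 → Rel a b X1 x1 y1 → Rel a b X2 x2 y2 → Rel a b X3 x3 y3 → Rel a b X4 x4 y4 →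
  Rel a b X5 x5 y5 → Rel a b X6 x6 y6 → Rel a b X7 x7 y7 → Rel a b X8 x8 y8 → Rel a b X9 x9 y9 →
  Rel a b (t5E (opsA R1 R2) X0 X1 X2 X3 X4 X5 X6 X7 X8 X9) (t5E opsR x0 x1 x2 x3 x4 x5 x6 x7 x8 x9)
    (t5E opsR y0 y1 y2 y3 y4 y5 y6 y7 y8 y9)
def S_PARc2E : Prop := ∀ (R1 R2 : ℕ) (a b : ℝ), Disp R1 R2 a b →
  ∀ (X0 X1 X2 X3 X4 X5 X6 X7 X8 : A)
    (x0 x1 x2 x3 x4 x5 x6 x7 x8 y0 y1 y2 y3 y4 y5 y6 y7 y8 : ℝ),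
  Rel a b X0 x0 y0 → Rel a b X1 x1 y1 → Rel a b X2 x2 y2 → Rel a b X3 x3 y3 → Rel a b X4 x4 y4 →
  Rel a b X5 x5 y5 → Rel a b X6 x6 y6 → Rel a b X7 x7 y7 → Rel a b X8 x8 y8 →
  Rel a b (c2E (opsA R1 R2) X0 X1 X2 X3 X4 X5 X6 X7 X8) (c2E opsR x0 x1 x2 x3 x4 x5 x6 x7 x8)
    (c2E opsR y0 y1 y2 y3 y4 y5 y6 y7 y8)
def S_PAR2 : Prop := S_PARnegY ∧ S_PARt5D ∧ S_PARc2D ∧ S_PARt5E ∧ S_PARc2E

/-! ### algebra parts -/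
def S_ANEG : Prop := ∀ m y : ℝ, 0 < m → 0 < y → y < 1 →
  0 < negY opsR (1 / (m + 1)) (y ^ 2) (alf (y ^ 2)) (bef (y ^ 2)) cc (Real.log 2) (33 / 5) →
  fmy m y ≤ 0
def S_AT5D : Prop := ∀ m y : ℝ, 0 < m → 0 < y → y < 1 →
  0 < t5D opsR (1 / (m + 1)) y (lp y) (- lm y) cc (Real.log 2) (33 / 5) →
  0 ≤ fyym m y * fy m y - fyy m y * fmy m y
/-- edge form: `L = -lm y`, `ι = 1/L`, `ζ = 1/(1+μL)`, `S = ι + μ`, `δ = 1-y` -/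
def S_AT5E : Prop := ∀ m y : ℝ, 0 < m → 0 < y → y < 1 →
  0 < t5E opsR (1 / (m + 1)) (1 / (- lm y)) (1 / (1 + 1 / (m + 1) * (- lm y)))
    (1 / (- lm y) + 1 / (m + 1)) (1 - y) ((1 - y) / (1 / (1 + 1 / (m + 1) * (- lm y))) ^ 2)
    (lp y) cc (Real.log 2) (33 / 5) →
  0 ≤ fyym m y * fy m y - fyy m y * fmy m y
def S_AC2D : Prop := ∀ m x : ℝ, 0 < mp m x → 0 < x → x < 1 →
  0 < c2D opsR (1 / (m + 1)) x (lp x) (- lm x) cc (Real.log 2) (33 / 5) →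
  (m + 1 - cc + lp x / x) * fy (mn m x) x ≤ (m + 1 - cc - lm x / x) * fy (mp m x) x
def S_AC2E : Prop := ∀ m x : ℝ, 0 < mp m x → 0 < x → x < 1 →
  0 < c2E opsR (1 / (m + 1)) (1 / (- lm x)) (1 / (1 + 1 / (m + 1) * (- lm x)))
    (1 / (- lm x) + 1 / (m + 1)) (1 - x) (lp x) cc (Real.log 2) (33 / 5) →
  (m + 1 - cc + lp x / x) * fy (mn m x) x ≤ (m + 1 - cc - lm x / x) * fy (mp m x) x

/-! ### assembly of the numerical parts -/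
/-- N1 and R2 in the middle -/
def S_N1M : Prop := ∀ m y z : ℝ, 0 < m → 0 < y → y ≤ 4076 / 4096 → y ≤ (2:ℝ) ^ m - 1 → 0 ≤ z →
  0 ≤ fyy m y * z ^ 2 + 2 * (fmy m y - eps m / 2 * fy m y) * z
    + (fmm m y - (Real.log 2 + eps m) * fm m y)
def S_N1E : Prop := ∀ m y z : ℝ, 0 < m → 4076 / 4096 ≤ y → y < 1 → y ≤ (2:ℝ) ^ m - 1 → 0 ≤ z →
  0 ≤ fyy m y * z ^ 2 + 2 * (fmy m y - eps m / 2 * fy m y) * z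
    + (fmm m y - (Real.log 2 + eps m) * fm m y)
def S_R2M : Prop := ∀ m x : ℝ, m0 ≤ m → 0 < x → x ≤ 4076 / 4096 → x ≤ (2:ℝ) ^ m - 1 →
  (f m x - lm x) * (EE (tt m) - EE (tp m x)) ≤ (lp x - f m x) * (EE (tm m x) - EE (tt m))
def S_R2E : Prop := ∀ m x : ℝ, m0 ≤ m → 4076 / 4096 ≤ x → x < 1 → x ≤ (2:ℝ) ^ m - 1 →
  (f m x - lm x) * (EE (tt m) - EE (tp m x)) ≤ (lp x - f m x) * (EE (tm m x) - EE (tt m))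

end Pool.MP324
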