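import Pool.Agent.H77.TL.Stm2
import Pool.Agent.H26.TL.R1
import Pool.Agent.H28.TL.Base3
import Pool.Agent.H29.TL.TPL
import Pool.Agent.H40.TL.Chain
import Pool.Agent.H64.TL.Cal
import Pool.Agent.H80.TL.Ind

/-!
# Crew TL : assembly of S07979 from the numerical parts
-/

set_option autoImplicit false

namespace Pool.MP324

theorem S_N1_of (hM : S_N1M) (hE : S_N1E) : S_N1 := by
  intro m y z hm h0 h1 hd hz
  rcases le_total y (4076 / 4096) with h | h
  · exact hM m y z hm h0 h hd hz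
  · exact hE m y z hm h h1 hd hz

theorem S_R2_of (hM : S_R2M) (hE : S_R2E) : S_R2 := by
  intro m x hm h0 h1 hd
  rcases le_total x (4076 / 4096) with h | h
  · exact hM m x hm h0 h hd
  · exact hE m x hm h h1 hd

theorem asm (hDEC : S_DEC) (hN1M : S_N1M) (hN1E : S_N1E) (hR2M : S_R2M) (hR2E : S_R2E)
    (hC2 : S_C2) :
    ∀ (n : ℕ) (A : Finset (Fin n → Bool)),
      0 < A.card → A.card < 2 ^ n →
      (∃ i : Fin n,
          ((Finset.univ.filter (fun (x : Fin n → Bool) =>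
              ¬ (x ∈ A ↔ Function.update x i (!(x i)) ∈ A))).card : ℝ) / 2 ^ n = 1) ∨
      2 * ((A.card : ℝ) / 2 ^ n) * (1 - (A.card : ℝ) / 2 ^ n) ≤
        ∑ i : Fin n,
          (((Finset.univ.filter (fun (x : Fin n → Bool) =>
              ¬ (x ∈ A ↔ Function.update x i (!(x i)) ∈ A))).card : ℝ) / 2 ^ n) /
            Real.logb 2 (1 / (((Finset.univ.filter (fun (x : Fin n → Bool) =>
              ¬ (x ∈ A ↔ Function.update x i (!(x i)) ∈ A))).card : ℝ) / 2 ^ n)) := by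
  have hN1 := S_N1_of hN1M hN1E
  have hR2 := S_R2_of hR2M hR2E
  have hTPL := TPL_proved CAL.t_CALf CAL.t_CALm CAL.t_CALy CAL.t_CALc hN1 hC2
  have hT := Pool.Agent.H80.TL.IND_proved BASE hDEC hTPL hR2
  exact Pool.Agent.H40.TL.RED_proved hT R1.t_R1

end Pool.MP324
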