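import Pool.Agent.H77.TL.Asm
import Pool.Agent.H64.TL.Eavg
import Pool.Agent.H64.TL.Cal2
import Pool.Agent.H74.TL.C2Red

/-!
# Crew TL : assembly, second step (C2)
-/

set_option autoImplicit false

namespace Pool.MP324

theorem S_C2_of (hNEG : S_NEG) (hT5 : S_T5) (hC2X : S_C2X) : S_C2 :=
  Pool.Agent.H74.TL.t_C2RED hNEG hT5 hC2X EAV.t_EAVG CAL.t_CALm CAL.t_CALy CAL.t_CALyy

theorem asm2 (hDEC : S_DEC) (hN1M : S_N1M) (hN1E : S_N1E) (hR2M : S_R2M) (hR2E : S_R2E)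
    (hNEG : S_NEG) (hT5 : S_T5) (hC2X : S_C2X) :
    ∀ (n : ℕ) (A : Finset (Fin n → Bool)),
      0 < A.card → A.card < 2 ^ n →
      (∃ i : Fin n,
          ((Finset.univ.filter (fun (x : Fin n → Bool) =>
              ¬ (x ∈ A ↔ Function.update x i (!(x i)) ∈ A))).card : ℝ) / 2 ^ n = 1) ∨
      2 * ((A.card : ℝ) / 2 ^ n) * (1 - (A.card : ℝ) / 2 ^ n) ≤
        ∑ i : Fin n,
          (((Finset.univ.filter (fun (x : Fin n → Bool) =>
              ¬ (x ∈ A ↔ Function.update x i (!(x i)) ∈ A))).card : ℝ) / 2 ^ n) /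
            Real.logb 2 (1 / (((Finset.univ.filter (fun (x : Fin n → Bool) =>
              ¬ (x ∈ A ↔ Function.update x i (!(x i)) ∈ A))).card : ℝ) / 2 ^ n)) :=
  asm hDEC hN1M hN1E hR2M hR2E (S_C2_of hNEG hT5 hC2X)

end Pool.MP324
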