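import Pool.Agent.H77.TL.Asm2
import Pool.Agent.H20.TL.AC2D
import Pool.Agent.H20.TL.AC2E
import Pool.Agent.H25.TL.TLIN
import Pool.Agent.H25.TL.TMUL
import Pool.Agent.H25.TL.TINV
import Pool.Agent.H60.TL.TCH
import Pool.Agent.H60.TL.TSER
import Pool.Agent.H61.TL.T5M
import Pool.Agent.H61.TL.C2XM
import Pool.Agent.H76.TL.N1E
import Pool.Agent.H80.TL.AT5D
import Pool.Agent.H80.TL.AT5E
import Pool.Agent.H86.TL.TLG
import Pool.Agent.H87.TL.PAR2
import Pool.Agent.H87.TL.NEGAll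

/-!
# Crew TL : assembly, third step
-/

set_option autoImplicit false

namespace Pool.MP324

open Pool.MP324.H25

theorem t_LG : S_LG := TLG_proved TSER_proved

theorem t_T5 : S_T5 :=
  H61.T5M_proved TLIN_proved TMUL_proved TINV_proved
    (Pool.Agent.H87.TL.t_PAR2 TLIN_proved TMUL_proved TINV_proved).2.1
    (Pool.Agent.H87.TL.t_PAR2 TLIN_proved TMUL_proved TINV_proved).2.2.2.1
    TCH_proved t_LG Pool.Agent.H80.TL.AT5D_proved Pool.Agent.H80.TL.AT5E_proved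

theorem t_C2X : S_C2X :=
  H61.C2XM_proved TLIN_proved TMUL_proved TINV_proved
    (Pool.Agent.H87.TL.t_PAR2 TLIN_proved TMUL_proved TINV_proved).2.2.1
    (Pool.Agent.H87.TL.t_PAR2 TLIN_proved TMUL_proved TINV_proved).2.2.2.2
    TCH_proved t_LG Pool.Agent.H20.TL.AC2D Pool.Agent.H20.TL.AC2E

theorem t_C2 : S_C2 := S_C2_of Pool.Agent.H87.TL.neg_all t_T5 t_C2X

theorem asm3 (hDEC : S_DEC) (hN1M : S_N1M) (hR2M : S_R2M) (hR2E : S_R2E) :
    ∀ (n : ℕ) (A : Finset (Fin n → Bool)),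
      0 < A.card → A.card < 2 ^ n →
      (∃ i : Fin n,
          ((Finset.univ.filter (fun (x : Fin n → Bool) =>
              ¬ (x ∈ A ↔ Function.update x i (!(x i)) ∈ A))).card : ℝ) / 2 ^ n = 1) ∨
      2 * ((A.card : ℝ) / 2 ^ n) * (1 - (A.card : ℝ) / 2 ^ n) ≤
        ∑ i : Fin n,
          (((Finset.univ.filter (fun (x : Fin n → Bool) =>
              ¬ (x ∈ A ↔ Function.update x i (!(x i)) ∈ A))).card : ℝ) / 2 ^ n) /
            Real.logb 2 (1 / (((Finset.univ.filter (fun (x : Fin n → Bool) =>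
              ¬ (x ∈ A ↔ Function.update x i (!(x i)) ∈ A))).card : ℝ) / 2 ^ n)) :=
  asm hDEC hN1M H76TL.N1E_proved hR2M hR2E t_C2

end Pool.MP324
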