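import Mathlib

/-!
# Crew TL : MP_324c10_co, frozen statement S07979 (Talagrand's inequality with constant 2)

Definitions. `m = log₂ (1/β)`, `t = 2^m = 1/β`.
-/

set_option autoImplicit false

namespace Pool.MP324

noncomputable section

/-- normalised level one coefficient of `B` -/
def bias {n : ℕ} (B : Finset (Fin n → Bool)) (i : Fin n) : ℝ :=
  (((B.filter (fun z => z i = true)).card : ℝ) - ((B.filter (fun z => z i = false)).card : ℝ))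
    / (B.card : ℝ)

/-- `m = log₂ (1/density)` -/
def mm {n : ℕ} (B : Finset (Fin n → Bool)) : ℝ :=
  - Real.logb 2 ((B.card : ℝ) / 2 ^ n)

/-- the profile `Φ(β) = β (2-β) / log₂ (2/β)` -/
def Phi (b : ℝ) : ℝ := b * (2 - b) / Real.logb 2 (2 / b)

/-- the function `j_m` of the level one inequality (`b = 2^(-m)`) -/
def jj (m y : ℝ) : ℝ :=
  m * ((Phi ((2:ℝ) ^ (-m) * (1 + y)) + Phi ((2:ℝ) ^ (-m) * (1 - y))) / 2 - Phi ((2:ℝ) ^ (-m)))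
    / (Phi ((2:ℝ) ^ (-m)) - ((2:ℝ) ^ (-m)) ^ 2)

/-- `c = 1 / ln 2` -/
def cc : ℝ := 1 / Real.log 2

def lp (y : ℝ) : ℝ := Real.logb 2 (1 + y)
def lm (y : ℝ) : ℝ := Real.logb 2 (1 - y)

/-- `a_+ = 1 / (m + 1 - ℓ_+)`, `a_- = 1 / (m + 1 - ℓ_-)` -/
def ap (m y : ℝ) : ℝ := 1 / (m + 1 - lp y)
def am (m y : ℝ) : ℝ := 1 / (m + 1 - lm y)

/-- `J = m ∑ p_s ℓ_s a_s` with `p_± = (1 ± y)/2` -/
def J (m y : ℝ) : ℝ := m * ((1 + y) / 2 * lp y * ap m y + (1 - y) / 2 * lm y * am m y)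

def Jy (m y : ℝ) : ℝ :=
  m * ((lp y * ap m y + cc * (m + 1) * ap m y ^ 2) - (lm y * am m y + cc * (m + 1) * am m y ^ 2)) / 2

def Jyy (m y : ℝ) : ℝ :=
  m * (cc / 2) * (m + 1) * (ap m y ^ 2 * (1 + 2 * cc * ap m y) / (1 + y)
    + am m y ^ 2 * (1 + 2 * cc * am m y) / (1 - y))

/-- `g(ℓ) = ℓ (1 - ℓ)` -/
def gg (l : ℝ) : ℝ := l * (1 - l)

def Jm (m y : ℝ) : ℝ :=
  (1 + y) / 2 * gg (lp y) * ap m y ^ 2 + (1 - y) / 2 * gg (lm y) * am m y ^ 2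

def Jmm (m y : ℝ) : ℝ :=
  -2 * ((1 + y) / 2 * gg (lp y) * ap m y ^ 3 + (1 - y) / 2 * gg (lm y) * am m y ^ 3)

def Jmy (m y : ℝ) : ℝ :=
  (ap m y ^ 2 * (gg (lp y) + cc * (1 - 2 * lp y) + 2 * cc * gg (lp y) * ap m y)
    - am m y ^ 2 * (gg (lm y) + cc * (1 - 2 * lm y) + 2 * cc * gg (lm y) * am m y)) / 2

/-- the weight `w(m) = 6.6 / (m + 7/4)^3` and its derivatives -/
def w (m : ℝ) : ℝ := (33 / 5) / (m + 7 / 4) ^ 3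
def w1 (m : ℝ) : ℝ := -3 * w m / (m + 7 / 4)
def w2 (m : ℝ) : ℝ := 12 * w m / (m + 7 / 4) ^ 2

def q (y : ℝ) : ℝ := 2 * y ^ 2 - y ^ 4
def qy (y : ℝ) : ℝ := 4 * y - 4 * y ^ 3
def qyy (y : ℝ) : ℝ := 4 - 12 * y ^ 2

/-- THE function of the level one inequality (T) -/
def f (m y : ℝ) : ℝ := (1 - w m) * J m y + w m * q y

def fy (m y : ℝ) : ℝ := (1 - w m) * Jy m y + w m * qy y
def fyy (m y : ℝ) : ℝ := (1 - w m) * Jyy m y + w m * qyy y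
def fm (m y : ℝ) : ℝ := (1 - w m) * Jm m y + w1 m * (q y - J m y)
def fmy (m y : ℝ) : ℝ := (1 - w m) * Jmy m y + w1 m * (qy y - Jy m y)
def fmm (m y : ℝ) : ℝ :=
  (1 - w m) * Jmm m y - 2 * w1 m * Jm m y + w2 m * (q y - J m y)

/-- the clock `E(m) = (m+1) √(m+15)`, and `ε = E'/E` -/
def E (m : ℝ) : ℝ := (m + 1) * Real.sqrt (m + 15)
def eps (m : ℝ) : ℝ := 1 / (m + 1) + 1 / (2 * (m + 15))

/-- antiderivative in `τ = 2^m` of the clock -/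
def EE (τ : ℝ) : ℝ := ∫ s in (1:ℝ)..τ, E (Real.logb 2 s)

/-- `t = 2^m`, `t_± = t / (1 ± x)`, `m_± = m - ℓ_±(x)` -/
def tt (m : ℝ) : ℝ := (2:ℝ) ^ m
def tp (m x : ℝ) : ℝ := (2:ℝ) ^ m / (1 + x)
def tm (m x : ℝ) : ℝ := (2:ℝ) ^ m / (1 - x)
def mp (m x : ℝ) : ℝ := m - lp x
def mn (m x : ℝ) : ℝ := m - lm x

/-- the weights `a_+ = ∫_t^{t_-}E / ∫_{t_+}^{t_-}E`, `a_- = 1 - a_+` -/
def wp (m x : ℝ) : ℝ := (EE (tm m x) - EE (tt m)) / (EE (tm m x) - EE (tp m x))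
def wn (m x : ℝ) : ℝ := (EE (tt m) - EE (tp m x)) / (EE (tm m x) - EE (tp m x))

/-- `m₀ = log₂ (8/5)` -/
def m0 : ℝ := Real.logb 2 (8 / 5)

end

end Pool.MP324
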