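import Pool.Agent.H77.TL.Fn

/-!
# Crew TL : strip driver (executable)
-/

set_option autoImplicit false

namespace Pool.MP324

/-- lower Horner sum of `∑ Y^j/(p (k+j)+1)`, scaled by 2^30 (`Y ≤ 2^29`) -/
def serLo (p Y : Nat) : Nat → Nat → Nat
  | 0, _ => 0
  | n + 1, k => Nat.add (Nat.div 1073741824 (Nat.add (Nat.mul p k) 1))
      (dn (Nat.mul (serLo p Y n (Nat.add k 1)) Y))

/-- upper Horner sum -/
def serHi (p Y : Nat) : Nat → Nat → Nat
  | 0, _ => 2147483648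
  | n + 1, k => Nat.add (Nat.add (Nat.div 1073741824 (Nat.add (Nat.mul p k) 1)) 2)
      (dn (Nat.mul (serHi p Y n (Nat.add k 1)) Y))

/-- tuple of an increasing, convex or concave function of the second variable from enclosures
`l ≤ φ 2^30 ≤ h` at `x0 < xc < x1` -/
def chord (x0 xc x1 l0 h0 lc hc l1 h1 : Nat) : A :=
  let dl := Nat.sub xc x0
  let dr := Nat.sub x1 xc
  let a := Nat.div (Nat.mul (Nat.sub lc h0) 1073741824) dl
  let a' := Nat.add (Nat.div (Nat.mul (Nat.sub hc l0) 1073741824) dl) 1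
  let b := Nat.div (Nat.mul (Nat.sub l1 hc) 1073741824) dr
  let b' := Nat.add (Nat.div (Nat.mul (Nat.sub h1 lc) 1073741824) dr) 1
  let lo := Nat.min a b
  let hi := Nat.max a' b'
  ⟨true, Int.ofNat lc, Nat.sub hc lc, Nat.max (Nat.sub h1 lc) (Nat.sub lc l0), 0, 0,
    Int.ofNat (Nat.div (Nat.add lo hi) 2), Nat.add (Nat.div (Nat.sub hi lo) 2) 1⟩

/-- lower bound of `2^30 log₂ (x/2^30)` for `2^30 ≤ x ≤ 2^31` -/
def lgLo (x : Nat) : Nat :=
  let u := Nat.div (Nat.mul (Nat.sub x 1073741824) 1073741824) (Nat.add x 1073741824)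
  let U := dn (Nat.mul u u)
  dn (Nat.mul (dn (Nat.mul (Nat.mul 2 u) (serLo 2 U 14 0))) 1549082004)

/-- upper bound -/
def lgHi (x : Nat) : Nat :=
  let u := Nat.add (Nat.div (Nat.mul (Nat.sub x 1073741824) 1073741824) (Nat.add x 1073741824)) 1
  let U := Nat.add (dn (Nat.mul u u)) 1
  Nat.add (dn (Nat.mul (Nat.add (dn (Nat.mul (Nat.mul 2 u) (serHi 2 U 14 0))) 1) 1549082006)) 1

/-- enclosure of `2^30 log₂ (1+y)`, `y` scaled -/
def lpLo (y : Nat) : Nat := lgLo (Nat.add 1073741824 y)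
def lpHi (y : Nat) : Nat := lgHi (Nat.add 1073741824 y)

/-- enclosure of `-2^30 log₂ (1-y)`, `y < 2^30` scaled -/
def LLo (y : Nat) : Nat :=
  let n := Nat.sub 1073741824 y
  let k := Nat.sub 30 (Nat.log2 n)
  Nat.sub (Nat.mul k 1073741824) (lgHi (Nat.shiftLeft n k))
def LHi (y : Nat) : Nat :=
  let n := Nat.sub 1073741824 y
  let k := Nat.sub 30 (Nat.log2 n)
  Nat.sub (Nat.mul k 1073741824) (lgLo (Nat.shiftLeft n k))

/-- run over the boxes `[b, b']` (units `2^-12`) of the first variable `μ` -/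
def boxMu (F : Nat → A → Bool) : Nat → List Nat → Bool
  | _, [] => true
  | b, b' :: l =>
    let R := Nat.mul (Nat.sub b' b) 131072
    and (F R ⟨true, Int.ofNat (Nat.mul (Nat.add b b') 131072), 0, R, 1073741824, 0, 0, 0⟩)
      (boxMu F b' l)

/-- strip `y ∈ [j0,j1]/4096` in the variable `Y = y²` (`j0 < j1 ≤ 2896`) -/
def stripY (F : Nat → Nat → A → A → A → A → Bool) (j0 j1 : Nat) (bs : List Nat) : Bool :=
  let Y0 := Nat.mul 64 (Nat.mul j0 j0)
  let Y1 := Nat.mul 64 (Nat.mul j1 j1)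
  let Yc := Nat.mul 32 (Nat.add (Nat.mul j0 j0) (Nat.mul j1 j1))
  let R2 := Nat.mul 32 (Nat.sub (Nat.mul j1 j1) (Nat.mul j0 j0))
  let al := chord Y0 Yc Y1 (serLo 2 Y0 40 0) (serHi 2 Y0 40 0) (serLo 2 Yc 40 0) (serHi 2 Yc 40 0)
    (serLo 2 Y1 40 0) (serHi 2 Y1 40 0)
  let be := chord Y0 Yc Y1 (serLo 1 Y0 40 0) (serHi 1 Y0 40 0) (serLo 1 Yc 40 0) (serHi 1 Yc 40 0)
    (serLo 1 Y1 40 0) (serHi 1 Y1 40 0)
  boxMu (fun R1 mu => F R1 R2 mu ⟨true, Int.ofNat Yc, 0, R2, 0, 0, 1073741824, 0⟩ al be) 0 bs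

/-- strip `y ∈ [j0,j1]/4096` in the variable `y` (`j0 < j1 < 4096`) -/
def stripD (F : Nat → Nat → A → A → A → A → Bool) (j0 j1 : Nat) (bs : List Nat) : Bool :=
  let y0 := Nat.mul 262144 j0
  let y1 := Nat.mul 262144 j1
  let yc := Nat.mul 131072 (Nat.add j0 j1)
  let R2 := Nat.mul 131072 (Nat.sub j1 j0)
  let lp := chord y0 yc y1 (lpLo y0) (lpHi y0) (lpLo yc) (lpHi yc) (lpLo y1) (lpHi y1)
  let L := chord y0 yc y1 (LLo y0) (LHi y0) (LLo yc) (LHi yc) (LLo y1) (LHi y1)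
  boxMu (fun R1 mu => F R1 R2 mu ⟨true, Int.ofNat yc, 0, R2, 0, 0, 1073741824, 0⟩ lp L) 0 bs

/-- last breakpoint of `μ` is large enough: all `μ ≤ cap/4096` with `μ (1+y) ≤ 1`, `y ≥ j0/4096` -/
def lastOK (cap j0 : Nat) (bs : List Nat) : Bool :=
  let b := bs.getLastD 0
  or (Nat.ble cap b) (Nat.ble 16777216 (Nat.mul b (Nat.add 4096 j0)))

/-- consecutive strips; `S` is `stripY F` or `stripD F` -/
def strips (S : Nat → Nat → List Nat → Bool) (cap : Nat) : Nat → List (Nat × List Nat) → Bool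
  | _, [] => true
  | j0, (j1, bs) :: l =>
    and (and (Nat.ble (Nat.add j0 1) j1) (lastOK cap j0 bs)) (and (S j0 j1 bs) (strips S cap j1 l))

/-- right end of the last strip -/
def stripsEnd : Nat → List (Nat × List Nat) → Nat
  | j0, [] => j0
  | _, (j1, _) :: l => stripsEnd j1 l

/-- constants `1/ln 2`, `ln 2`, `33/5` -/
def Ac : A := A.cst 1549082005 2
def Al2 : A := A.cst 744261118 2
def Ak : A := A.cst 7086696038 1

/-- test of N1 from the values `(fyy, T, Q, X)` -/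
def n1Test (R1 R2 : Nat) (r : A × A × A × A) : Bool :=
  and (A.pos R1 R2 r.1) (or (A.pos R1 R2 r.2.2.2) (and (A.pos R1 R2 r.2.1) (A.pos R1 R2 r.2.2.1)))

def FN1D (R1 R2 : Nat) (mu y lp L : A) : Bool := n1Test R1 R2 (n1D (opsA R1 R2) mu y lp L Ac Al2 Ak)
def FN1Y (R1 R2 : Nat) (mu Y al be : A) : Bool := n1Test R1 R2 (n1Y (opsA R1 R2) mu Y al be Ac Al2 Ak)
def FR2D (R1 R2 : Nat) (mu y lp L : A) : Bool := A.pos R1 R2 (r2D (opsA R1 R2) mu y lp L Ac Al2 Ak)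
def FR2Y (R1 R2 : Nat) (mu Y al be : A) : Bool := A.pos R1 R2 (r2Y (opsA R1 R2) mu Y al be Ac Al2 Ak)

end Pool.MP324
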