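import Pool.Agent.H77.TL.Tool

/-!
# Crew TL : the functions checked by slope arithmetic (generated from one description, generic in the operations)
-/

set_option autoImplicit false

set_option linter.unusedVariables false

namespace Pool.MP324

def negY {α : Type} (O : Ops α) (mu Y al be c l2 k : α) : α :=
  let rho := (O.inv (O.add (O.int 1) (O.nmul 3 (O.half (O.half mu)))))
  let w1 := (O.mul k (O.mul (O.mul mu mu) (O.mul rho (O.mul rho rho))))
  let w := (O.mul mu w1)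
  let om := (O.sub (O.int 1) mu)
  let ow := (O.sub (O.int 1) w)
  let cYb := (O.mul c (O.mul Y be))
  let P := (O.add (O.int 1) (O.half (O.mul mu cYb)))
  let ca := (O.mul c al)
  let R := (O.mul mu ca)
  let iD := (O.inv (O.sub (O.mul P P) (O.mul Y (O.mul R R))))
  let d0 := (O.mul P iD)
  let d1 := (O.mul R iD)
  let e0 := (O.add (O.mul d0 d0) (O.mul Y (O.mul d1 d1)))
  let e1 := (O.nmul 2 (O.mul d0 d1))
  let t0 := (O.add (O.mul e0 d0) (O.mul Y (O.mul e1 d1)))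
  let t1 := (O.add (O.mul e0 d1) (O.mul e1 d0))
  let l0 := (O.neg (O.half (O.mul c be)))
  let g0 := (O.sub (O.sub l0 (O.mul Y (O.mul l0 l0))) (O.mul ca ca))
  let g1 := (O.mul ca (O.add (O.int 1) cYb))
  let ldb := (O.add (O.mul Y (O.mul l0 d1)) (O.mul ca d0))
  let Jyy1 := (O.mul om (O.add ldb (O.mul c e1)))
  let cm2 := (O.nmul 2 (O.mul c mu))
  let b2 := (O.add (O.mul Y (O.mul g0 e1)) (O.mul g1 e0))
  let b3 := (O.add (O.mul Y (O.mul g0 t1)) (O.mul g1 t0))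
  let bl := (O.add (O.mul Y (O.mul l0 e1)) (O.mul ca e0))
  let CP := (O.add (O.add b2 (O.mul c (O.sub e1 (O.nmul 2 bl)))) (O.mul cm2 b3))
  let F := (O.sub (O.nmul 3 (O.mul (O.mul w1 rho) (O.sub (O.nmul 4 (O.sub (O.int 1) Y)) Jyy1))) (O.mul ow CP))
  F

def t5D {α : Type} (O : Ops α) (mu y lp L c l2 k : α) : α :=
  let rho := (O.inv (O.add (O.int 1) (O.nmul 3 (O.half (O.half mu)))))
  let w1 := (O.mul k (O.mul (O.mul mu mu) (O.mul rho (O.mul rho rho))))
  let w := (O.mul mu w1)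
  let om := (O.sub (O.int 1) mu)
  let ow := (O.sub (O.int 1) w)
  let dp := (O.inv (O.sub (O.int 1) (O.mul mu lp)))
  let dm := (O.inv (O.add (O.int 1) (O.mul mu L)))
  let dp2 := (O.mul dp dp)
  let dm2 := (O.mul dm dm)
  let gp := (O.mul lp (O.sub (O.int 1) lp))
  let gm := (O.neg (O.mul L (O.add (O.int 1) L)))
  let Jy := (O.half (O.mul om (O.add (O.add (O.mul lp dp) (O.mul c dp2)) (O.sub (O.mul L dm) (O.mul c dm2)))))
  let cm := (O.mul c mu)
  let ip := (O.inv (O.add (O.int 1) y))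
  let im := (O.inv (O.sub (O.int 1) y))
  let Jyy := (O.half (O.mul (O.mul c om) (O.add (O.mul dp2 (O.mul (O.add (O.int 1) (O.nmul 2 (O.mul cm dp))) ip)) (O.mul dm2 (O.mul (O.add (O.int 1) (O.nmul 2 (O.mul cm dm))) im)))))
  let CP := (O.half (O.sub (O.mul dp2 (O.add (O.add gp (O.mul c (O.sub (O.int 1) (O.nmul 2 lp)))) (O.nmul 2 (O.mul cm (O.mul gp dp))))) (O.mul dm2 (O.add (O.add gm (O.mul c (O.add (O.int 1) (O.nmul 2 L)))) (O.nmul 2 (O.mul cm (O.mul gm dm)))))))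
  let yy := (O.mul y y)
  let qy := (O.nmul 4 (O.mul y (O.sub (O.int 1) yy)))
  let qyy := (O.sub (O.int 4) (O.nmul 12 yy))
  let fyy := (O.add (O.mul ow Jyy) (O.mul w qyy))
  let fy := (O.add (O.mul ow Jy) (O.mul w qy))
  let wr3 := (O.nmul 3 (O.mul w1 rho))
  let fmy := (O.sub (O.mul ow CP) (O.mul wr3 (O.sub qy Jy)))
  let ct := (O.mul c (O.sub (O.int 1) (O.nmul 2 mu)))
  let jp := (O.sub (O.mul dp2 (O.sub (O.int 1) (O.nmul 2 (O.mul ct dp)))) (O.nmul 2 (O.mul om (O.mul (O.mul lp (O.mul dp2 dp)) (O.add (O.int 1) (O.nmul 3 (O.mul cm dp)))))))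
  let jm := (O.add (O.mul dm2 (O.sub (O.int 1) (O.nmul 2 (O.mul ct dm)))) (O.nmul 2 (O.mul om (O.mul (O.mul L (O.mul dm2 dm)) (O.add (O.int 1) (O.nmul 3 (O.mul cm dm)))))))
  let JYM := (O.half (O.mul c (O.add (O.mul jp ip) (O.mul jm im))))
  let fyym := (O.sub (O.mul ow JYM) (O.mul wr3 (O.sub qyy Jyy)))
  let F := (O.sub (O.mul fyym fy) (O.mul fyy fmy))
  F

def c2D {α : Type} (O : Ops α) (mu y lp L c l2 k : α) : α :=
  let dp := (O.inv (O.sub (O.int 1) (O.mul mu lp)))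
  let dm := (O.inv (O.add (O.int 1) (O.mul mu L)))
  let yy := (O.mul y y)
  let qy := (O.nmul 4 (O.mul y (O.sub (O.int 1) yy)))
  let a := (O.mul mu dp)
  let ra := (O.inv (O.add (O.int 1) (O.nmul 3 (O.half (O.half a)))))
  let wa := (O.mul k (O.mul (O.mul a a) (O.mul ra (O.mul ra ra))))
  let a1 := (O.inv (O.sub (O.int 1) (O.mul a lp)))
  let a2 := (O.inv (O.add (O.int 1) (O.mul a L)))
  let la1 := (O.mul lp a1)
  let la2 := (O.mul L a2)
  let ca1 := (O.mul c a1)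
  let ca2 := (O.mul c a2)
  let Ja := (O.half (O.mul (O.sub (O.int 1) a) (O.add (O.add la1 (O.mul ca1 a1)) (O.sub la2 (O.mul ca2 a2)))))
  let ha := (O.add (O.half (O.sub (O.sub (O.sub (O.add (O.mul lp la1) (O.mul (O.mul c la1) (O.add (O.int 1) a1))) la1) (O.mul ca1 a1)) (O.sub (O.add (O.sub (O.mul L la2) (O.mul (O.mul c la2) (O.add (O.int 1) a2))) la2) (O.mul ca2 a2)))) (O.mul wa (O.sub qy Ja)))
  let fa := (O.add Ja (O.mul (O.mul a wa) (O.sub qy Ja)))
  let b := (O.mul mu dm)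
  let rb := (O.inv (O.add (O.int 1) (O.nmul 3 (O.half (O.half b)))))
  let wb := (O.mul k (O.mul (O.mul b b) (O.mul rb (O.mul rb rb))))
  let b1 := (O.inv (O.sub (O.int 1) (O.mul b lp)))
  let b2 := (O.inv (O.add (O.int 1) (O.mul b L)))
  let lb1 := (O.mul lp b1)
  let lb2 := (O.mul L b2)
  let cb1 := (O.mul c b1)
  let cb2 := (O.mul c b2)
  let Jb := (O.half (O.mul (O.sub (O.int 1) b) (O.add (O.add lb1 (O.mul cb1 b1)) (O.sub lb2 (O.mul cb2 b2)))))
  let hb := (O.add (O.half (O.sub (O.sub (O.sub (O.add (O.mul lp lb1) (O.mul (O.mul c lb1) (O.add (O.int 1) b1))) lb1) (O.mul cb1 b1)) (O.sub (O.add (O.sub (O.mul L lb2) (O.mul (O.mul c lb2) (O.add (O.int 1) b2))) lb2) (O.mul cb2 b2)))) (O.mul wb (O.sub qy Jb)))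
  let fb := (O.add Jb (O.mul (O.mul b wb) (O.sub qy Jb)))
  let cy := (O.mul c y)
  let F := (O.add (O.sub (O.mul (O.sub L cy) fa) (O.mul (O.sub lp cy) fb)) (O.mul y (O.sub (O.mul dp ha) (O.mul dm hb))))
  F

end Pool.MP324
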