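import Pool.Agent.H77.TL.Tool

/-!
# Crew TL : the functions checked by slope arithmetic (generated from one description, generic in the operations)
-/

set_option autoImplicit false

set_option linter.unusedVariables false

namespace Pool.MP324

def t5E {α : Type} (O : Ops α) (mu io ze S de dz l c l2 k : α) : α :=
  let rho := (O.inv (O.add (O.int 1) (O.nmul 3 (O.half (O.half mu)))))
  let w1 := (O.mul k (O.mul (O.mul mu mu) (O.mul rho (O.mul rho rho))))
  let w := (O.mul mu w1)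
  let om := (O.sub (O.int 1) mu)
  let ow := (O.sub (O.int 1) w)
  let dp := (O.inv (O.sub (O.int 1) (O.mul mu l)))
  let dp2 := (O.mul dp dp)
  let y := (O.sub (O.int 1) de)
  let ip := (O.inv (O.sub (O.int 2) de))
  let qy := (O.nmul 4 (O.mul y (O.mul de (O.sub (O.int 2) de))))
  let qyy := (O.sub (O.int 4) (O.nmul 12 (O.mul y y)))
  let JS := (O.half (O.mul om (O.add (O.mul (O.sub (O.add (O.mul l dp) (O.mul c dp2)) (O.mul c (O.mul ze ze))) S) (O.int 1))))
  let fS := (O.add (O.mul ow JS) (O.mul w (O.mul qy S)))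
  let cm := (O.mul c mu)
  let gp := (O.mul l (O.sub (O.int 1) l))
  let SS := (O.mul S S)
  let CPS := (O.half (O.add (O.sub (O.add (O.mul (O.mul dp2 (O.add (O.add gp (O.mul c (O.sub (O.int 1) (O.nmul 2 l)))) (O.nmul 2 (O.mul cm (O.mul gp dp))))) SS) (O.add (O.int 1) io)) (O.mul c (O.mul io (O.add (O.int 2) io)))) (O.nmul 2 (O.mul (O.mul cm ze) (O.add (O.int 1) io)))))
  let wr3 := (O.nmul 3 (O.mul w1 rho))
  let f2 := (O.sub (O.mul ow CPS) (O.mul wr3 (O.sub (O.mul qy SS) (O.mul JS S))))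
  let ct := (O.mul c (O.sub (O.int 1) (O.nmul 2 mu)))
  let dzp := (O.mul dz ip)
  let P2 := (O.mul dzp (O.sub (O.mul dp2 (O.sub (O.int 1) (O.nmul 2 (O.mul ct dp)))) (O.nmul 2 (O.mul om (O.mul (O.mul l (O.mul dp2 dp)) (O.add (O.int 1) (O.nmul 3 (O.mul cm dp))))))))
  let NM := (O.add (O.add (O.int 1) (O.nmul 2 (O.mul cm ze))) (O.mul dzp (O.mul dp2 (O.add (O.int 1) (O.nmul 2 (O.mul cm dp))))))
  let qz := (O.nmul 2 (O.mul l2 (O.mul qyy dz)))
  let g3 := (O.sub (O.mul ow (O.add (O.mul (O.add (O.sub (O.int 1) (O.nmul 2 (O.mul ct ze))) P2) S) (O.nmul 2 (O.mul om (O.add (O.int 1) (O.nmul 3 (O.mul cm ze))))))) (O.mul wr3 (O.mul (O.sub qz (O.mul om NM)) S)))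
  let gn := (O.add (O.mul ow (O.mul om NM)) (O.mul w qz))
  let F := (O.sub (O.mul g3 fS) (O.mul gn f2))
  F

def c2E {α : Type} (O : Ops α) (mu io ze S de l c l2 k : α) : α :=
  let x := (O.sub (O.int 1) de)
  let ix := (O.inv x)
  let qy := (O.nmul 4 (O.mul x (O.mul de (O.sub (O.int 2) de))))
  let dp := (O.inv (O.sub (O.int 1) (O.mul mu l)))
  let a := (O.mul mu dp)
  let ra := (O.inv (O.add ze (O.mul (O.sub (O.int 1) ze) dp)))
  let a2 := (O.mul ze ra)
  let a1 := (O.inv (O.sub (O.int 1) (O.mul a l)))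
  let rh := (O.inv (O.add (O.int 1) (O.nmul 3 (O.half (O.half a)))))
  let wa := (O.mul k (O.mul (O.mul a a) (O.mul rh (O.mul rh rh))))
  let la1 := (O.mul l a1)
  let caa := (O.mul c (O.mul a1 a1))
  let a22 := (O.mul c (O.mul a2 a2))
  let JaS := (O.half (O.mul (O.sub (O.int 1) a) (O.add (O.mul (O.sub (O.add la1 caa) a22) S) ra)))
  let iS := (O.mul io S)
  let ior := (O.mul io ra)
  let faS := (O.add JaS (O.mul (O.mul a wa) (O.sub (O.mul qy S) JaS)))
  let haI := (O.add (O.half (O.sub (O.mul (O.sub (O.sub (O.add (O.mul l la1) (O.mul (O.mul c la1) (O.add (O.int 1) a1))) la1) caa) iS) (O.sub (O.add (O.sub ra (O.mul (O.mul c ior) (O.add (O.int 1) a2))) ior) (O.mul a22 iS)))) (O.mul wa (O.sub (O.mul qy iS) (O.mul JaS io))))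
  let b := (O.mul mu ze)
  let b2 := (O.inv (O.sub (O.int 2) ze))
  let b1 := (O.inv (O.sub (O.int 1) (O.mul b l)))
  let rg := (O.inv (O.add (O.int 1) (O.nmul 3 (O.half (O.half b)))))
  let wb := (O.mul k (O.mul (O.mul b b) (O.mul rg (O.mul rg rg))))
  let lb1 := (O.mul l b1)
  let cbb := (O.mul c (O.mul b1 b1))
  let b22 := (O.mul c (O.mul b2 b2))
  let tb := (O.sub (O.add lb1 cbb) b22)
  let JbI := (O.half (O.mul (O.sub (O.int 1) b) (O.add (O.mul tb iS) (O.mul S b2))))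
  let fbI := (O.add JbI (O.mul (O.mul b wb) (O.sub (O.mul qy iS) JbI)))
  let ii := (O.mul io io)
  let b2i := (O.mul b2 io)
  let JbZ := (O.half (O.mul (O.sub (O.int 1) b) (O.add (O.mul tb ii) b2i)))
  let hbZ := (O.add (O.half (O.sub (O.mul (O.sub (O.sub (O.add (O.mul l lb1) (O.mul (O.mul c lb1) (O.add (O.int 1) b1))) lb1) cbb) ii) (O.sub (O.add (O.sub b2 (O.mul (O.mul c b2i) (O.add (O.int 1) b2))) b2i) (O.mul b22 ii)))) (O.mul wb (O.sub (O.mul qy ii) JbZ)))
  let F := (O.sub (O.add (O.sub (O.mul (O.sub ix (O.mul c io)) faS) (O.mul (O.sub (O.mul l ix) c) fbI)) (O.mul dp haI)) hbZ)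
  F

end Pool.MP324
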