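import Pool.Agent.H77.TL.Drv
import Pool.Agent.H77.TL.Fn2
import Pool.Agent.H77.TL.Fn3

/-!
# Crew TL : tests for C2 (NEG, T5, C2X) and the edge charts
-/

set_option autoImplicit false

namespace Pool.MP324

def FNEG (R1 R2 : Nat) (mu Y al be : A) : Bool := A.pos R1 R2 (negY (opsA R1 R2) mu Y al be Ac Al2 Ak)
def FT5D (R1 R2 : Nat) (mu y lp L : A) : Bool := A.pos R1 R2 (t5D (opsA R1 R2) mu y lp L Ac Al2 Ak)
def FC2D (R1 R2 : Nat) (mu y lp L : A) : Bool := A.pos R1 R2 (c2D (opsA R1 R2) mu y lp L Ac Al2 Ak)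

/-- strips with an arbitrary condition on the breakpoint list -/
def stripsG (ok : Nat → List Nat → Bool) (S : Nat → Nat → List Nat → Bool) :
    Nat → List (Nat × List Nat) → Bool
  | _, [] => true
  | j0, (j1, bs) :: l =>
    and (and (Nat.ble (Nat.add j0 1) j1) (ok j0 bs)) (and (S j0 j1 bs) (stripsG ok S j1 l))

/-- last breakpoint at least `cap` -/
def okCap (cap _j0 : Nat) (bs : List Nat) : Bool := Nat.ble cap (bs.getLastD 0)

/-- chart A (`μ`, `ζ`): last breakpoint `b ≥ cap` or `b z0 ≥ i0 (4096 - z0)` -/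
def okA (cap i0 z0 : Nat) (bs : List Nat) : Bool :=
  let b := bs.getLastD 0
  or (Nat.ble cap b) (Nat.ble (Nat.mul i0 (Nat.sub 4096 z0)) (Nat.mul b z0))

/-- strip in plain variables: first variable over boxes, second in `[z0,z1]/4096` -/
def stripE (F : Nat → Nat → A → A → Bool) (z0 z1 : Nat) (bs : List Nat) : Bool :=
  let R2 := Nat.mul 131072 (Nat.sub z1 z0)
  boxMu (fun R1 v => F R1 R2 v
    ⟨true, Int.ofNat (Nat.mul 131072 (Nat.add z0 z1)), 0, R2, 0, 0, 1073741824, 0⟩) 0 bs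

/-- constants at the edge `δ = 1 - y ≤ 4/4096`: `δ`, `ℓ_+`, `δ/ζ²` in chart A and B -/
def Ade : A := A.cst 524288 524288
def Alp : A := A.cst 1073362824 379000
def AdzA : A := A.cst 24159191 24159191
def AdzB : A := A.cst 2098000 2098000

/-- chart A: variables `μ`, `ζ ≤ 1/2`; `ι = μ ζ/(1-ζ)`, `S = ι + μ` -/
def FT5A (R1 R2 : Nat) (mu ze : A) : Bool :=
  let io := A.mul R1 R2 (A.mul R1 R2 mu ze) (A.inv R1 R2 (A.sub (A.int 1) ze))
  let S := A.add io mu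
  A.pos R1 R2 (t5E (opsA R1 R2) mu io ze S Ade AdzA Alp Ac Al2 Ak)
def FC2A (R1 R2 : Nat) (mu ze : A) : Bool :=
  let io := A.mul R1 R2 (A.mul R1 R2 mu ze) (A.inv R1 R2 (A.sub (A.int 1) ze))
  let S := A.add io mu
  A.pos R1 R2 (c2E (opsA R1 R2) mu io ze S Ade Alp Ac Al2 Ak)

/-- chart B: variables `ι`, `ζ ≥ 1/2`; `μ = ι (1-ζ)/ζ` -/
def FT5B (R1 R2 : Nat) (io ze : A) : Bool :=
  let mu := A.mul R1 R2 (A.mul R1 R2 io (A.sub (A.int 1) ze)) (A.inv R1 R2 ze)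
  let S := A.add io mu
  A.pos R1 R2 (t5E (opsA R1 R2) mu io ze S Ade AdzB Alp Ac Al2 Ak)
def FC2B (R1 R2 : Nat) (io ze : A) : Bool :=
  let mu := A.mul R1 R2 (A.mul R1 R2 io (A.sub (A.int 1) ze)) (A.inv R1 R2 ze)
  let S := A.add io mu
  A.pos R1 R2 (c2E (opsA R1 R2) mu io ze S Ade Alp Ac Al2 Ak)

end Pool.MP324
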