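import Pool.Agent.H77.TL.Tool

/-!
# Crew TL : the functions checked by slope arithmetic (generated from one description, generic in the operations)
-/

set_option autoImplicit false
set_option linter.unusedVariables false

namespace Pool.MP324

def n1D {α : Type} (O : Ops α) (mu y lp L c l2 k : α) : α × α × α × α :=
  let rho := (O.inv (O.add (O.int 1) (O.nmul 3 (O.half (O.half mu)))))
  let w1 := (O.mul k (O.mul (O.mul mu mu) (O.mul rho (O.mul rho rho))))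
  let w := (O.mul mu w1)
  let ep := (O.add (O.int 1) (O.half (O.inv (O.add (O.int 1) (O.nmul 14 mu)))))
  let om := (O.sub (O.int 1) mu)
  let ow := (O.sub (O.int 1) w)
  let pp := (O.half (O.add (O.int 1) y))
  let pm := (O.half (O.sub (O.int 1) y))
  let dp := (O.inv (O.sub (O.int 1) (O.mul mu lp)))
  let dm := (O.inv (O.add (O.int 1) (O.mul mu L)))
  let dp2 := (O.mul dp dp)
  let dm2 := (O.mul dm dm)
  let gp := (O.mul lp (O.sub (O.int 1) lp))
  let gm := (O.neg (O.mul L (O.add (O.int 1) L)))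
  let J := (O.mul om (O.sub (O.mul pp (O.mul lp dp)) (O.mul pm (O.mul L dm))))
  let Jy := (O.half (O.mul om (O.add (O.add (O.mul lp dp) (O.mul c dp2)) (O.sub (O.mul L dm) (O.mul c dm2)))))
  let cm := (O.mul c mu)
  let Jyy := (O.half (O.mul (O.mul c om) (O.add (O.mul dp2 (O.mul (O.add (O.int 1) (O.nmul 2 (O.mul cm dp))) (O.inv (O.add (O.int 1) y)))) (O.mul dm2 (O.mul (O.add (O.int 1) (O.nmul 2 (O.mul cm dm))) (O.inv (O.sub (O.int 1) y)))))))
  let gdp := (O.mul gp dp2)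
  let gdm := (O.mul gm dm2)
  let AA := (O.add (O.mul pp gdp) (O.mul pm gdm))
  let BB := (O.add (O.mul pp (O.mul gdp dp)) (O.mul pm (O.mul gdm dm)))
  let CP := (O.half (O.sub (O.mul dp2 (O.add (O.add gp (O.mul c (O.sub (O.int 1) (O.nmul 2 lp)))) (O.nmul 2 (O.mul cm (O.mul gp dp))))) (O.mul dm2 (O.add (O.add gm (O.mul c (O.add (O.int 1) (O.nmul 2 L)))) (O.nmul 2 (O.mul cm (O.mul gm dm)))))))
  let yy := (O.mul y y)
  let q := (O.mul yy (O.sub (O.int 2) yy))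
  let qy := (O.nmul 4 (O.mul y (O.sub (O.int 1) yy)))
  let fyy := (O.add (O.mul ow Jyy) (O.mul w (O.sub (O.int 4) (O.nmul 12 yy))))
  let fy := (O.add (O.mul ow Jy) (O.mul w qy))
  let wr := (O.mul w rho)
  let T := (O.sub (O.sub (O.mul ow (O.mul mu CP)) (O.nmul 3 (O.mul wr (O.sub qy Jy)))) (O.half (O.mul ep fy)))
  let le := (O.add l2 (O.mul mu ep))
  let qJ := (O.sub q J)
  let Q := (O.add (O.sub (O.sub (O.add (O.nmul 6 (O.mul wr (O.mul mu AA))) (O.nmul 12 (O.mul wr (O.mul rho qJ)))) (O.nmul 2 (O.mul ow (O.mul mu BB)))) (O.mul le (O.mul ow AA))) (O.nmul 3 (O.mul (O.mul le (O.mul w1 rho)) qJ)))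
  let X := (O.sub (O.mul fyy Q) (O.mul T T))
  (fyy, T, Q, X)

def n1Y {α : Type} (O : Ops α) (mu Y al be c l2 k : α) : α × α × α × α :=
  let rho := (O.inv (O.add (O.int 1) (O.nmul 3 (O.half (O.half mu)))))
  let w1 := (O.mul k (O.mul (O.mul mu mu) (O.mul rho (O.mul rho rho))))
  let w := (O.mul mu w1)
  let ep := (O.add (O.int 1) (O.half (O.inv (O.add (O.int 1) (O.nmul 14 mu)))))
  let om := (O.sub (O.int 1) mu)
  let ow := (O.sub (O.int 1) w)
  let cYb := (O.mul c (O.mul Y be))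
  let P := (O.add (O.int 1) (O.half (O.mul mu cYb)))
  let ca := (O.mul c al)
  let R := (O.mul mu ca)
  let iD := (O.inv (O.sub (O.mul P P) (O.mul Y (O.mul R R))))
  let d0 := (O.mul P iD)
  let d1 := (O.mul R iD)
  let e0 := (O.add (O.mul d0 d0) (O.mul Y (O.mul d1 d1)))
  let e1 := (O.nmul 2 (O.mul d0 d1))
  let t0 := (O.add (O.mul e0 d0) (O.mul Y (O.mul e1 d1)))
  let t1 := (O.add (O.mul e0 d1) (O.mul e1 d0))
  let l0 := (O.neg (O.half (O.mul c be)))
  let g0 := (O.sub (O.sub l0 (O.mul Y (O.mul l0 l0))) (O.mul ca ca))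
  let g1 := (O.mul ca (O.add (O.int 1) cYb))
  let lda := (O.add (O.mul l0 d0) (O.mul ca d1))
  let ldb := (O.add (O.mul Y (O.mul l0 d1)) (O.mul ca d0))
  let JY := (O.mul om (O.add lda ldb))
  let Jyy1 := (O.mul om (O.add ldb (O.mul c e1)))
  let cm2 := (O.nmul 2 (O.mul c mu))
  let ja := (O.add e0 (O.mul cm2 t0))
  let jb := (O.add e1 (O.mul cm2 t1))
  let Jyy := (O.mul (O.mul c om) (O.mul (O.sub ja (O.mul Y jb)) (O.inv (O.sub (O.int 1) Y))))
  let a2 := (O.add (O.mul g0 e0) (O.mul g1 e1))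
  let b2 := (O.add (O.mul Y (O.mul g0 e1)) (O.mul g1 e0))
  let a3 := (O.add (O.mul g0 t0) (O.mul g1 t1))
  let b3 := (O.add (O.mul Y (O.mul g0 t1)) (O.mul g1 t0))
  let AY := (O.add a2 b2)
  let BY := (O.add a3 b3)
  let bl := (O.add (O.mul Y (O.mul l0 e1)) (O.mul ca e0))
  let CP := (O.add (O.add b2 (O.mul c (O.sub e1 (O.nmul 2 bl)))) (O.mul cm2 b3))
  let fyy := (O.add (O.mul ow Jyy) (O.mul w (O.sub (O.int 4) (O.nmul 12 Y))))
  let oY := (O.nmul 4 (O.sub (O.int 1) Y))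
  let fy := (O.add (O.mul ow Jyy1) (O.mul w oY))
  let qJ := (O.sub (O.sub (O.int 2) Y) JY)
  let wr := (O.mul w rho)
  let T := (O.sub (O.sub (O.mul ow (O.mul mu CP)) (O.nmul 3 (O.mul wr (O.sub oY Jyy1)))) (O.half (O.mul ep fy)))
  let le := (O.add l2 (O.mul mu ep))
  let Q := (O.add (O.sub (O.sub (O.add (O.nmul 6 (O.mul wr (O.mul mu AY))) (O.nmul 12 (O.mul wr (O.mul rho qJ)))) (O.nmul 2 (O.mul ow (O.mul mu BY)))) (O.mul le (O.mul ow AY))) (O.nmul 3 (O.mul (O.mul le (O.mul w1 rho)) qJ)))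
  let X := (O.sub (O.mul fyy Q) (O.mul T T))
  (fyy, T, Q, X)

def r2D {α : Type} (O : Ops α) (mu y lp L c l2 k : α) : α :=
  let rho := (O.inv (O.add (O.int 1) (O.nmul 3 (O.half (O.half mu)))))
  let w1 := (O.mul k (O.mul (O.mul mu mu) (O.mul rho (O.mul rho rho))))
  let k1 := (O.inv (O.add (O.int 1) (O.nmul 14 mu)))
  let ka := (O.mul mu k1)
  let om := (O.sub (O.int 1) mu)
  let pp := (O.half (O.add (O.int 1) y))
  let pm := (O.half (O.sub (O.int 1) y))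
  let dp := (O.inv (O.sub (O.int 1) (O.mul mu lp)))
  let dm := (O.inv (O.add (O.int 1) (O.mul mu L)))
  let e := (O.sub (O.mul pp lp) (O.mul pm L))
  let lpd := (O.mul lp dp)
  let Ldm := (O.mul L dm)
  let J := (O.mul om (O.sub (O.mul pp lpd) (O.mul pm Ldm)))
  let yy := (O.mul y y)
  let q := (O.mul yy (O.sub (O.int 2) yy))
  let f1 := (O.add (O.sub (O.mul om (O.add (O.mul pp (O.mul lp lpd)) (O.mul pm (O.mul L Ldm)))) e) (O.mul w1 (O.sub q J)))
  let g1 := (O.add (O.int 1) (O.half k1))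
  let g2 := (O.sub (O.half ka) (O.half (O.half (O.half (O.mul ka k1)))))
  let g3 := (O.half (O.half (O.half (O.mul ka ka))))
  let c2 := (O.mul c c)
  let r0 := (O.sub (O.add (O.nmul 2 (O.mul c2 g2)) (O.nmul 6 (O.mul (O.mul c2 c) g3))) (O.mul c g1))
  let r1 := (O.sub (O.sub g1 (O.nmul 2 (O.mul c g2))) (O.nmul 6 (O.mul c2 g3)))
  let r2 := (O.add g2 (O.nmul 3 (O.mul c g3)))
  let RL := (O.add r0 (O.mul L (O.add r1 (O.mul L (O.sub r2 (O.mul L g3))))))
  let Rp := (O.sub r0 (O.mul lp (O.sub r1 (O.mul lp (O.add r2 (O.mul lp g3))))))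
  let a := (O.nmul 2 (O.mul pp RL))
  let b := (O.nmul 2 (O.mul pm Rp))
  let F := (O.sub (O.sub (O.add (O.mul (O.sub lp e) a) (O.mul (O.add e L) b)) (O.mul f1 (O.add (O.nmul 2 y) (O.mul mu (O.sub a b))))) (O.mul (O.sub (O.int 1) yy) (O.mul r0 (O.add lp L))))
  F

def r2Y {α : Type} (O : Ops α) (mu Y al be c l2 k : α) : α :=
  let rho := (O.inv (O.add (O.int 1) (O.nmul 3 (O.half (O.half mu)))))
  let w1 := (O.mul k (O.mul (O.mul mu mu) (O.mul rho (O.mul rho rho))))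
  let k1 := (O.inv (O.add (O.int 1) (O.nmul 14 mu)))
  let ka := (O.mul mu k1)
  let om := (O.sub (O.int 1) mu)
  let cYb := (O.mul c (O.mul Y be))
  let P := (O.add (O.int 1) (O.half (O.mul mu cYb)))
  let ca := (O.mul c al)
  let R := (O.mul mu ca)
  let iD := (O.inv (O.sub (O.mul P P) (O.mul Y (O.mul R R))))
  let d0 := (O.mul P iD)
  let d1 := (O.mul R iD)
  let l0 := (O.neg (O.half (O.mul c be)))
  let L0 := (O.add (O.mul Y (O.mul l0 l0)) (O.mul ca ca))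
  let L1 := (O.nmul 2 (O.mul l0 ca))
  let e := (O.add ca l0)
  let S := (O.add (O.mul L0 d0) (O.mul Y (O.add (O.add (O.mul L1 d1) (O.mul L0 d1)) (O.mul L1 d0))))
  let JY := (O.mul om (O.add (O.add (O.add (O.mul l0 d0) (O.mul ca d1)) (O.mul Y (O.mul l0 d1))) (O.mul ca d0)))
  let ft := (O.add (O.sub (O.mul om S) e) (O.mul w1 (O.sub (O.sub (O.int 2) Y) JY)))
  let g1 := (O.add (O.int 1) (O.half k1))
  let g2 := (O.sub (O.half ka) (O.half (O.half (O.half (O.mul ka k1)))))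
  let g3 := (O.half (O.half (O.half (O.mul ka ka))))
  let c2 := (O.mul c c)
  let r0 := (O.sub (O.add (O.nmul 2 (O.mul c2 g2)) (O.nmul 6 (O.mul (O.mul c2 c) g3))) (O.mul c g1))
  let r1 := (O.sub (O.sub g1 (O.nmul 2 (O.mul c g2))) (O.nmul 6 (O.mul c2 g3)))
  let r2 := (O.add g2 (O.nmul 3 (O.mul c g3)))
  let V0 := (O.sub (O.add (O.mul r2 L0) (O.mul g3 (O.mul Y (O.add (O.mul l0 L0) (O.mul ca L1))))) (O.mul r1 l0))
  let V1 := (O.sub (O.add (O.mul r2 (O.mul Y L1)) (O.mul g3 (O.mul Y (O.add (O.mul Y (O.mul l0 L1)) (O.mul ca L0))))) (O.mul r1 ca))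
  let xu := (O.add ca (O.mul Y (O.sub l0 (O.add e (O.mul mu ft)))))
  let F := (O.sub (O.mul V0 xu) (O.mul (O.add (O.int 1) (O.mul mu (O.sub r0 V1))) ft))
  F

end Pool.MP324
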