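import Mathlib

/-!
# Crew TL : slope arithmetic (fixed point 2^30), executable definitions

A quantity `φ` is a function of a point in a two dimensional box. We compare its value `φc` at the centre
and `φp` at a point with displacement `(a, b)`, `|a| ≤ R1/2^30`, `|b| ≤ R2/2^30`:
`|φc 2^30 - m| ≤ e`, `|φp 2^30 - m| ≤ v`, `φp - φc = σ a + τ b` with
`|σ 2^30 - s| ≤ sr`, `|τ 2^30 - t| ≤ tr`.
All operations are written with `Int.*` / `Nat.*` directly for fast kernel evaluation.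
-/

set_option autoImplicit false

namespace Pool.MP324

structure A where
  ok : Bool
  m : Int
  e : Nat
  v : Nat
  s : Int
  sr : Nat
  t : Int
  tr : Nat

/-- the relation -/
def Rel (a b : ℝ) (X : A) (φc φp : ℝ) : Prop :=
  X.ok = true →
    |φc * 2 ^ 30 - (X.m : ℝ)| ≤ (X.e : ℝ) ∧ |φp * 2 ^ 30 - (X.m : ℝ)| ≤ (X.v : ℝ) ∧
    ∃ σ τ : ℝ, φp - φc = σ * a + τ * b ∧
      |σ * 2 ^ 30 - (X.s : ℝ)| ≤ (X.sr : ℝ) ∧ |τ * 2 ^ 30 - (X.t : ℝ)| ≤ (X.tr : ℝ)

/-- floor (x / 2^30) -/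
def dv (x : Int) : Int := Int.shiftRight x 30
def dn (x : Nat) : Nat := Nat.shiftRight x 30

def A.cst (n : Int) (e : Nat) : A := ⟨true, n, e, e, 0, 0, 0, 0⟩

/-- integer constant -/
def A.int (n : Int) : A := ⟨true, Int.mul n 1073741824, 0, 0, 0, 0, 0, 0⟩

def A.add (a b : A) : A :=
  ⟨and a.ok b.ok, Int.add a.m b.m, Nat.add a.e b.e, Nat.add a.v b.v, Int.add a.s b.s,
    Nat.add a.sr b.sr, Int.add a.t b.t, Nat.add a.tr b.tr⟩

def A.sub (a b : A) : A :=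
  ⟨and a.ok b.ok, Int.sub a.m b.m, Nat.add a.e b.e, Nat.add a.v b.v, Int.sub a.s b.s,
    Nat.add a.sr b.sr, Int.sub a.t b.t, Nat.add a.tr b.tr⟩

def A.neg (a : A) : A :=
  ⟨a.ok, Int.neg a.m, a.e, a.v, Int.neg a.s, a.sr, Int.neg a.t, a.tr⟩

/-- multiplication by a natural number -/
def A.nmul (n : Nat) (a : A) : A :=
  ⟨a.ok, Int.mul (Int.ofNat n) a.m, Nat.mul n a.e, Nat.mul n a.v, Int.mul (Int.ofNat n) a.s,
    Nat.mul n a.sr, Int.mul (Int.ofNat n) a.t, Nat.mul n a.tr⟩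

/-- division by two -/
def A.half (a : A) : A :=
  ⟨a.ok, Int.shiftRight a.m 1, Nat.add (Nat.shiftRight a.e 1) 1, Nat.add (Nat.shiftRight a.v 1) 1,
    Int.shiftRight a.s 1, Nat.add (Nat.shiftRight a.sr 1) 1,
    Int.shiftRight a.t 1, Nat.add (Nat.shiftRight a.tr 1) 1⟩

def A.mul (R1 R2 : Nat) (a b : A) : A :=
  let am := a.m.natAbs
  let bm := b.m.natAbs
  let as := a.s.natAbs
  let bs := b.s.natAbs
  let at' := a.t.natAbs
  let bt := b.t.natAbs
  let m := dv (Int.mul a.m b.m)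
  let e := Nat.add (dn (Nat.add (Nat.mul am b.e) (Nat.mul a.e (Nat.add bm b.e)))) 2
  let s := dv (Int.add (Int.mul a.m b.s) (Int.mul b.m a.s))
  let sr := Nat.add (dn (Nat.add (Nat.add (Nat.mul am b.sr) (Nat.mul a.v (Nat.add bs b.sr)))
    (Nat.add (Nat.mul bm a.sr) (Nat.mul b.e (Nat.add as a.sr))))) 2
  let t := dv (Int.add (Int.mul a.m b.t) (Int.mul b.m a.t))
  let tr := Nat.add (dn (Nat.add (Nat.add (Nat.mul am b.tr) (Nat.mul a.v (Nat.add bt b.tr)))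
    (Nat.add (Nat.mul bm a.tr) (Nat.mul b.e (Nat.add at' a.tr))))) 2
  let v := Nat.add e (Nat.add (dn (Nat.add (Nat.mul R1 (Nat.add s.natAbs sr))
    (Nat.mul R2 (Nat.add t.natAbs tr)))) 2)
  ⟨and a.ok b.ok, m, e, v, s, sr, t, tr⟩

/-- inverse; fails (`ok = false`) unless `m > v` and `m > e` -/
def A.inv (R1 R2 : Nat) (a : A) : A :=
  let m := a.m.toNat
  let i := Nat.div 1152921504606846976 m          -- 2^60 / m
  let e := Nat.add (Nat.div (Nat.mul (Nat.add i 1) a.e) (Nat.sub m a.e)) 2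
  let v' := Nat.add (Nat.div (Nat.mul (Nat.add i 1) a.v) (Nat.sub m a.v)) 2
  let P := Nat.mul (Nat.add i v') (Nat.add i e)
  let Q := Nat.sub P (Nat.mul i i)
  let s := Int.neg (dv (Int.mul (dv (Int.mul a.s (Int.ofNat i))) (Int.ofNat i)))
  let sr := Nat.add (Nat.shiftRight (Nat.add (Nat.mul a.sr P) (Nat.mul a.s.natAbs Q)) 60)
    (Nat.add (dn i) 4)
  let t := Int.neg (dv (Int.mul (dv (Int.mul a.t (Int.ofNat i))) (Int.ofNat i)))
  let tr := Nat.add (Nat.shiftRight (Nat.add (Nat.mul a.tr P) (Nat.mul a.t.natAbs Q)) 60)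
    (Nat.add (dn i) 4)
  let v := Nat.add e (Nat.add (dn (Nat.add (Nat.mul R1 (Nat.add s.natAbs sr))
    (Nat.mul R2 (Nat.add t.natAbs tr)))) 2)
  ⟨and a.ok (and (Nat.ble (Nat.add a.v 1) m) (Nat.ble (Nat.add a.e 1) m)),
    Int.ofNat i, e, v, s, sr, t, tr⟩

/-- test of positivity at every point of the box -/
def A.pos (R1 R2 : Nat) (a : A) : Bool :=
  and a.ok (Nat.ble (Nat.add a.e (Nat.add (dn (Nat.add (Nat.mul R1 (Nat.add a.s.natAbs a.sr))
    (Nat.mul R2 (Nat.add a.t.natAbs a.tr)))) 2)) a.m.toNat)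

/-- the operations, abstractly -/
structure Ops (α : Type) where
  add : α → α → α
  sub : α → α → α
  neg : α → α
  mul : α → α → α
  inv : α → α
  half : α → α
  nmul : Nat → α → α
  int : Int → α

def opsA (R1 R2 : Nat) : Ops A :=
  ⟨A.add, A.sub, A.neg, A.mul R1 R2, A.inv R1 R2, A.half, A.nmul, A.int⟩

noncomputable def opsR : Ops ℝ :=
  ⟨fun a b => a + b, fun a b => a - b, fun a => -a, fun a b => a * b, fun a => a⁻¹,
    fun a => a / 2, fun n a => (n : ℝ) * a, fun n => (n : ℝ)⟩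

end Pool.MP324
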